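import Mathlib

set_option autoImplicit false

/-!
# Cubic functions on the lattice points of an orthant: the core argument
-/

open Filter Topology

namespace Pool.Agent.V1190.Thin

/-- A cubic function on `V`: a symmetric trilinear, a symmetric bilinear, a linear and a constant
part. -/
structure Cub (V : Type) [NormedAddCommGroup V] [NormedSpace ℝ V] where
  T : V →L[ℝ] V →L[ℝ] V →L[ℝ] ℝ
  B : V →L[ℝ] V →L[ℝ] ℝ
  L : V →L[ℝ] ℝ
  c : ℝ
  T12 : ∀ x y z, T x y z = T y x z
  T23 : ∀ x y z, T x y z = T x z y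
  B12 : ∀ x y, B x y = B y x

namespace Cub

variable {V : Type} [NormedAddCommGroup V] [NormedSpace ℝ V] (F : Cub V)

/-- The value of the cubic function. -/
noncomputable def ev (x : V) : ℝ := F.T x x x + F.B x x + F.L x + F.c

/-- The derivative in the directions without higher terms. -/
noncomputable def lin (y D : V) : ℝ := 3 * F.T D y y + 2 * F.B D y + F.L D

theorem cT {X : Type} [TopologicalSpace X] {f g h : X → V} (hf : Continuous f) (hg : Continuous g)
    (hh : Continuous h) : Continuous fun x => F.T (f x) (g x) (h x) :=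
  ((F.T.continuous.comp hf).clm_apply hg).clm_apply hh

theorem cB {X : Type} [TopologicalSpace X] {f g : X → V} (hf : Continuous f) (hg : Continuous g) :
    Continuous fun x => F.B (f x) (g x) :=
  (F.B.continuous.comp hf).clm_apply hg

theorem continuous_ev : Continuous F.ev := by
  unfold ev
  exact (((F.cT continuous_id continuous_id continuous_id).add
    (F.cB continuous_id continuous_id)).add F.L.continuous).add continuous_const

theorem continuous_lin_left (D : V) : Continuous fun y => F.lin y D := by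
  unfold lin
  exact ((continuous_const.mul (F.cT continuous_const continuous_id continuous_id)).add
    (continuous_const.mul (F.cB continuous_const continuous_id))).add continuous_const

theorem continuous_lin_right (y : V) : Continuous fun D => F.lin y D := by
  unfold lin
  exact ((continuous_const.mul (F.cT continuous_id continuous_const continuous_const)).add
    (continuous_const.mul (F.cB continuous_id continuous_const))).add F.L.continuous

theorem lin_sub (y D D' : V) : F.lin y (D - D') = F.lin y D - F.lin y D' := by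
  unfold lin
  simp only [map_sub, sub_apply]
  ring

theorem lin_smul (y D : V) (t : ℝ) : F.lin y (t • D) = t * F.lin y D := by
  unfold lin
  simp only [map_smul, smul_apply, smul_eq_mul]
  ring

theorem ev_add (y u : V) (h1 : ∀ x, F.T u u x = 0) (h2 : F.B u u = 0) :
    F.ev (y + u) = F.ev y + F.lin y u := by
  unfold ev lin
  have e1 : F.T y u u = 0 := by rw [F.T12, F.T23, h1]
  have e2 : F.T u y u = 0 := by rw [F.T23, h1]
  have e3 : F.T u u y = 0 := h1 y
  have e4 : F.T u u u = 0 := h1 u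
  have e5 : F.T y y u = F.T u y y := by rw [F.T23, F.T12]
  have e6 : F.T y u y = F.T u y y := by rw [F.T12]
  have e7 : F.B y u = F.B u y := F.B12 _ _
  simp only [map_add, add_apply]
  rw [e1, e2, e3, e4, e5, e6, e7, h2]
  ring

theorem ev_smul (v : V) (t : ℝ) :
    F.ev (t • v) = t ^ 3 * F.T v v v + t ^ 2 * F.B v v + t * F.L v + F.c := by
  unfold ev
  simp only [map_smul, smul_apply, smul_eq_mul]
  ring

end Cub

variable {ι : Type} [Fintype ι]

/-- Natural coordinates. -/
def IsNat (z : EuclideanSpace ℝ ι) : Prop := ∀ i, ∃ m : ℕ, z i = m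

/-- The vector with integer coordinates `w`. -/
noncomputable def toE (w : ι → ℤ) : EuclideanSpace ℝ ι := WithLp.toLp 2 (fun i => (w i : ℝ))

/-- There is no unbounded thin ray in the orthant. -/
def NoThin (F : Cub (EuclideanSpace ℝ ι)) : Prop :=
  ∀ y D : EuclideanSpace ℝ ι, (∀ i, 0 ≤ y i) → (∀ i, 0 ≤ D i) → D ≠ 0 →
    ∃ ε > 0, ∃ M : ℝ, ∀ z : EuclideanSpace ℝ ι, IsNat z →
      (∃ t : ℝ, 0 ≤ t ∧ ‖z - (y + t • D)‖ ≤ ε) → M ≤ F.ev z

theorem abs_coord_le (x : EuclideanSpace ℝ ι) (i : ι) : |x i| ≤ ‖x‖ := by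
  have := PiLp.norm_apply_le x i
  rwa [Real.norm_eq_abs] at this

omit [Fintype ι] in
theorem isNat_of {z : EuclideanSpace ℝ ι} {w : ι → ℤ} (hz : z = toE w) (h : ∀ i, -1 < z i) :
    IsNat z := by
  intro i
  have h1 := h i
  have h2 : z i = (w i : ℝ) := by rw [hz]; simp [toE]
  rw [h2] at h1
  have h3 : (-1 : ℤ) < w i := by
    have : ((-1 : ℤ) : ℝ) < (w i : ℝ) := by push_cast; linarith
    exact_mod_cast this
  obtain ⟨m, hm⟩ := Int.eq_ofNat_of_zero_le (by omega : 0 ≤ w i)
  exact ⟨m, by rw [h2, hm]; simp⟩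

/-- Dirichlet approximation. -/
theorem dirichlet (v : EuclideanSpace ℝ ι) {ε : ℝ} (hε : 0 < ε) (t₀ : ℝ) :
    ∃ t : ℝ, t₀ < t ∧ ∃ w : ι → ℤ, ‖toE w - t • v‖ < ε := by
  set s : ℝ := max t₀ 0 + 1 with hs
  have hs0 : 0 < s := by positivity
  have hst : t₀ < s := by
    have := le_max_left t₀ 0
    linarith
  set x : ℕ → EuclideanSpace ℝ ι := fun k => WithLp.toLp 2 (fun i => Int.fract ((k : ℝ) * s * v i))
    with hx
  have hb : Bornology.IsBounded (Set.range x) := by
    rw [isBounded_iff_forall_norm_le]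
    refine ⟨Real.sqrt (Fintype.card ι), ?_⟩
    rintro _ ⟨k, rfl⟩
    rw [EuclideanSpace.norm_eq]
    apply Real.sqrt_le_sqrt
    calc ∑ i, ‖x k i‖ ^ 2 ≤ ∑ _i : ι, (1 : ℝ) := by
          apply Finset.sum_le_sum
          intro i _
          have h0 : 0 ≤ x k i := Int.fract_nonneg _
          have h1 : x k i ≤ 1 := (Int.fract_lt_one _).le
          rw [Real.norm_eq_abs, abs_of_nonneg h0]
          nlinarith
      _ = Fintype.card ι := by simp
  obtain ⟨a, -, φ, hφ, hlim⟩ := tendsto_subseq_of_bounded hb (fun k => Set.mem_range_self k)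
  have hc : Tendsto (fun k => ‖x (φ (k + 1)) - x (φ k)‖) atTop (𝓝 0) := by
    have h1 : Tendsto (fun k => x (φ (k + 1))) atTop (𝓝 a) :=
      (hlim.comp (tendsto_add_atTop_nat 1))
    have h2 := (h1.sub hlim).norm
    simpa using h2
  obtain ⟨k, hk⟩ := (hc.eventually (gt_mem_nhds hε)).exists
  have hlt : φ k < φ (k + 1) := hφ (Nat.lt_succ_self k)
  refine ⟨((φ (k + 1) : ℝ) - φ k) * s, ?_, fun i => ⌊(φ (k + 1) : ℝ) * s * v i⌋ -
    ⌊(φ k : ℝ) * s * v i⌋, ?_⟩
  · have h1 : (1 : ℝ) ≤ (φ (k + 1) : ℝ) - φ k := by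
      have : (φ k : ℝ) + 1 ≤ φ (k + 1) := by exact_mod_cast hlt
      linarith
    nlinarith
  · have : toE (fun i => ⌊(φ (k + 1) : ℝ) * s * v i⌋ - ⌊(φ k : ℝ) * s * v i⌋) -
        (((φ (k + 1) : ℝ) - φ k) * s) • v = -(x (φ (k + 1)) - x (φ k)) := by
      ext i
      simp only [toE, hx, PiLp.sub_apply, PiLp.smul_apply, PiLp.neg_apply, smul_eq_mul, Int.fract]
      push_cast
      ring
    rw [this, norm_neg]
    exact hk

variable (F : Cub (EuclideanSpace ℝ ι))

/-- The linear part along a good subspace is nonnegative. -/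
theorem ntr (hN : NoThin F) (L : Submodule ℝ (EuclideanSpace ℝ ι))
    (hT : ∀ u ∈ L, ∀ v ∈ L, ∀ x, F.T u v x = 0) (hB : ∀ u ∈ L, ∀ v ∈ L, F.B u v = 0)
    (z : EuclideanSpace ℝ ι) (hz : IsNat z) (u : EuclideanSpace ℝ ι) (hu : u ∈ L)
    (D : EuclideanSpace ℝ ι) (hD : D ∈ L) (hDpos : ∀ i, (∃ v ∈ L, v i ≠ 0) → 0 < D i) :
    0 ≤ F.lin (z - u) D := by
  by_contra hneg
  push Not at hneg
  have : CompleteSpace L := FiniteDimensional.complete ℝ L
  set y := z - u with hy
  -- the Baire category argument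
  set G : ℕ → Set L := fun j => {D : L | ∃ t : ℝ, (j : ℝ) < t ∧ ∃ w : ι → ℤ,
    ‖toE w + u - t • (D : EuclideanSpace ℝ ι)‖ < 1 / ((j : ℝ) + 1)} with hG
  have hGo : ∀ j, IsOpen (G j) := by
    intro j
    have : G j = ⋃ (t : ℝ), ⋃ (_ : (j : ℝ) < t), ⋃ (w : ι → ℤ),
        {D : L | ‖toE w + u - t • (D : EuclideanSpace ℝ ι)‖ < 1 / ((j : ℝ) + 1)} := by
      ext D
      simp [hG]
    rw [this]
    refine isOpen_iUnion fun t => isOpen_iUnion fun _ => isOpen_iUnion fun w => ?_
    exact isOpen_lt (by fun_prop) continuous_const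
  have hGd : ∀ j, Dense (G j) := by
    intro j
    rw [Metric.dense_iff]
    intro D₀ r hr
    have hj : (0 : ℝ) < 1 / ((j : ℝ) + 1) := by positivity
    obtain ⟨t, ht, w, hw⟩ := dirichlet (D₀ : EuclideanSpace ℝ ι) hj (max j (‖u‖ / r))
    have ht1 : (j : ℝ) < t := (le_max_left _ _).trans_lt ht
    have ht2 : ‖u‖ / r < t := (le_max_right _ _).trans_lt ht
    have ht0 : 0 < t := lt_of_le_of_lt (by positivity) ht1
    refine ⟨D₀ + (1 / t) • ⟨u, hu⟩, ?_, ?_⟩
    · rw [Metric.mem_ball, dist_eq_norm, add_sub_cancel_left, norm_smul, Real.norm_eq_abs,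
        abs_of_pos (by positivity : (0 : ℝ) < 1 / t)]
      change 1 / t * ‖u‖ < r
      rw [div_lt_iff₀ hr] at ht2
      rw [one_div, inv_mul_eq_div, div_lt_iff₀ ht0]
      linarith
    · refine ⟨t, ht1, w, ?_⟩
      have : toE w + u - t • ((D₀ + (1 / t) • (⟨u, hu⟩ : L) : L) : EuclideanSpace ℝ ι) =
          toE w - t • (D₀ : EuclideanSpace ℝ ι) := by
        push_cast
        rw [smul_add, smul_smul, mul_one_div_cancel ht0.ne', one_smul]
        abel
      rw [this]
      exact hw
  have hdense := dense_iInter_of_isOpen hGo hGd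
  set O : Set L := {D : L | (∀ i, (∃ v ∈ L, v i ≠ 0) → 0 < (D : EuclideanSpace ℝ ι) i) ∧
    F.lin y D < 0} with hO
  have hOo : IsOpen O := by
    have h1 : IsOpen {D : L | ∀ i, (∃ v ∈ L, v i ≠ 0) → 0 < (D : EuclideanSpace ℝ ι) i} := by
      have : {D : L | ∀ i, (∃ v ∈ L, v i ≠ 0) → 0 < (D : EuclideanSpace ℝ ι) i} =
          ⋂ i, {D : L | (∃ v ∈ L, v i ≠ 0) → 0 < (D : EuclideanSpace ℝ ι) i} := by
        ext; simp
      rw [this]
      refine isOpen_iInter_of_finite fun i => ?_
      by_cases hi : ∃ v ∈ L, v i ≠ 0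
      · simp only [hi, forall_const]
        exact isOpen_lt continuous_const (by fun_prop)
      · simp only [hi, IsEmpty.forall_iff]
        exact isOpen_univ
    have h2 : IsOpen {D : L | F.lin y D < 0} :=
      isOpen_lt ((F.continuous_lin_right y).comp continuous_subtype_val) continuous_const
    exact h1.inter h2
  obtain ⟨D₁, ⟨hD₁p, hD₁n⟩, hD₁G⟩ := hdense.inter_open_nonempty O hOo ⟨⟨D, hD⟩, hDpos, hneg⟩
  rw [Set.mem_iInter] at hD₁G
  choose t ht w hw using hD₁G
  set D' : EuclideanSpace ℝ ι := (D₁ : EuclideanSpace ℝ ι) with hD'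
  have hD'L : D' ∈ L := D₁.2
  have hD'0 : ∀ i, 0 ≤ D' i := by
    intro i
    by_cases hi : ∃ v ∈ L, v i ≠ 0
    · exact (hD₁p i hi).le
    · push Not at hi
      exact (hi D' hD'L).ge
  have hD'ne : D' ≠ 0 := by
    intro h
    rw [h] at hD₁n
    have : F.lin y 0 = 0 := by unfold Cub.lin; simp
    linarith
  -- shift the base point into the orthant
  obtain ⟨t₀, ht₀, hy₀⟩ : ∃ t₀ : ℝ, 0 ≤ t₀ ∧ ∀ i, 0 ≤ (y + t₀ • D') i := by
    have h1 : ∀ i, ∃ s : ℝ, 0 ≤ s ∧ ∀ s' ≥ s, 0 ≤ (y + s' • D') i := by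
      intro i
      by_cases hi : ∃ v ∈ L, v i ≠ 0
      · have hp := hD₁p i hi
        refine ⟨|y i| / D' i, by positivity, fun s' hs' => ?_⟩
        rw [ge_iff_le, div_le_iff₀ hp] at hs'
        simp only [PiLp.add_apply, PiLp.smul_apply, smul_eq_mul]
        have := neg_abs_le (y i)
        linarith
      · push Not at hi
        refine ⟨0, le_rfl, fun s' _ => ?_⟩
        obtain ⟨m, hm⟩ := hz i
        simp only [PiLp.add_apply, PiLp.smul_apply, smul_eq_mul, hi D' hD'L, hy, PiLp.sub_apply,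
          hi u hu, hm]
        simp
    choose s hs0 hs using h1
    refine ⟨∑ i, s i, Finset.sum_nonneg fun i _ => hs0 i, fun i => hs i _ ?_⟩
    exact Finset.single_le_sum (fun j _ => hs0 j) (Finset.mem_univ i)
  obtain ⟨ε, hε, M, hM⟩ := hN (y + t₀ • D') D' hy₀ hD'0 hD'ne
  set η : ℕ → EuclideanSpace ℝ ι := fun j => toE (w j) + u - t j • D' with hη
  have hη0 : Tendsto η atTop (𝓝 0) := by
    rw [tendsto_zero_iff_norm_tendsto_zero]
    refine squeeze_zero (fun j => norm_nonneg _) (fun j => (hw j).le) ?_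
    exact tendsto_one_div_add_atTop_nhds_zero_nat
  have ht' : Tendsto t atTop atTop :=
    tendsto_atTop_mono (fun j => (ht j).le) tendsto_natCast_atTop_atTop
  have hyη : Tendsto (fun j => y + η j) atTop (𝓝 y) := by
    simpa using hη0.const_add y
  have h1 : Tendsto (fun j => F.ev (y + η j)) atTop (𝓝 (F.ev y)) :=
    (F.continuous_ev.tendsto y).comp hyη
  have h2 : Tendsto (fun j => F.lin (y + η j) D') atTop (𝓝 (F.lin y D')) :=
    ((F.continuous_lin_left D').tendsto y).comp hyη
  have h3 : Tendsto (fun j => F.ev (y + η j) + t j * F.lin (y + η j) D') atTop atBot :=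
    h1.add_atBot (ht'.atTop_mul_neg hD₁n h2)
  have h4 : ∀ᶠ j in atTop, M ≤ F.ev (y + η j) + t j * F.lin (y + η j) D' := by
    filter_upwards [ht'.eventually (eventually_ge_atTop t₀),
      (tendsto_zero_iff_norm_tendsto_zero.1 hη0).eventually (gt_mem_nhds hε)] with j hj1 hj2
    have e1 : z + toE (w j) = (y + η j) + t j • D' := by
      simp only [hy, hη]
      abel
    have e2 : F.ev (z + toE (w j)) = F.ev (y + η j) + t j * F.lin (y + η j) D' := by
      rw [e1, F.ev_add, F.lin_smul]
      · intro x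
        simp [hT D' hD'L D' hD'L x]
      · simp [hB D' hD'L D' hD'L]
    rw [← e2]
    apply hM
    · have hzw : ∃ w' : ι → ℤ, z = toE w' := by
        choose m hm using hz
        refine ⟨fun i => (m i : ℤ), ?_⟩
        ext i
        simp [toE, hm i]
      obtain ⟨w', hw'⟩ := hzw
      apply isNat_of (w := w' + w j)
      · rw [hw']
        ext i
        simp [toE]
      · intro i
        have e3 : (z + toE (w j)) i = (y + t₀ • D') i + (t j - t₀) * D' i + η j i := by
          rw [e1]
          simp only [PiLp.add_apply, PiLp.smul_apply, smul_eq_mul]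
          ring
        have e4 : 0 ≤ (t j - t₀) * D' i := mul_nonneg (by linarith) (hD'0 i)
        have e5 : |η j i| < 1 := by
          refine (abs_coord_le _ _).trans_lt ((hw j).trans_le ?_)
          rw [div_le_one (by positivity)]
          have : (0 : ℝ) ≤ j := by positivity
          linarith
        have e6 := (abs_lt.1 e5).1
        have e7 := hy₀ i
        linarith
    · refine ⟨t j - t₀, by linarith, ?_⟩
      have : z + toE (w j) - (y + t₀ • D' + (t j - t₀) • D') = η j := by
        rw [e1, sub_smul]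
        abel
      rw [this]
      exact hj2.le
  have h5 := h3.eventually (eventually_lt_atBot M)
  obtain ⟨j, hj1, hj2⟩ := (h4.and h5).exists
  linarith

end Pool.Agent.V1190.Thin
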