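import Mathlib

set_option autoImplicit false

/-!
# Dickson's lemma and finite generation
-/

namespace Pool.Agent.V1190.Thin

theorem dickson {κ μ : Type} [Finite κ] [Finite μ] (D : Set (κ → ℕ)) (s : (κ → ℕ) → μ → ℤ)
    (hs : ∀ w ∈ D, ∀ i, 0 ≤ s w i) :
    ∃ D₀ : Set (κ → ℕ), D₀.Finite ∧ D₀ ⊆ D ∧ ∀ w ∈ D, ∃ w₀ ∈ D₀, w₀ ≤ w ∧ ∀ i, s w₀ i ≤ s w i := by
  classical
  set Φ : (κ → ℕ) → (κ ⊕ μ → ℕ) := fun w => Sum.elim w (fun i => (s w i).toNat) with hΦ
  set P : (κ ⊕ μ → ℕ) → Prop := fun x => ∃ w ∈ D, Φ w = x with hP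
  have hfin : {x | Minimal P x}.Finite := by
    apply (setOfPred_minimal_antichain P).finite_of_partiallyWellOrderedOn
    exact Set.isPWO_of_wellQuasiOrderedLE _
  have hch : ∀ x, ∃ w, P x → w ∈ D ∧ Φ w = x := by
    intro x
    by_cases h : P x
    · obtain ⟨w, hw⟩ := h
      exact ⟨w, fun _ => hw⟩
    · exact ⟨fun _ => 0, fun h' => absurd h' h⟩
  choose g hg using hch
  refine ⟨g '' {x | Minimal P x}, hfin.image _, ?_, ?_⟩
  · rintro _ ⟨x, hx, rfl⟩
    exact (hg x hx.1).1
  · intro w hw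
    obtain ⟨x, hx1, hx2⟩ := exists_minimal_le_of_wellFoundedLT P (Φ w) ⟨w, hw, rfl⟩
    obtain ⟨h1, h2⟩ := hg x hx2.1
    refine ⟨g x, ⟨x, hx2, rfl⟩, ?_, ?_⟩
    · intro i
      have h3 := hx1 (Sum.inl i)
      rw [← h2] at h3
      exact h3
    · intro i
      have h3 := hx1 (Sum.inr i)
      rw [← h2] at h3
      have h4 : (s (g x) i).toNat ≤ (s w i).toNat := h3
      have h5 := hs _ h1 i
      have h6 := hs _ hw i
      omega

/-- Finite generation of the monoid of natural solutions of homogeneous inequalities. -/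
theorem generators {κ μ : Type} [Fintype κ] [Finite μ] (ℓ : (κ → ℕ) → μ → ℤ)
    (hadd : ∀ w w', ℓ (w + w') = ℓ w + ℓ w') :
    ∃ H : Finset (κ → ℕ), (∀ h ∈ H, ∀ i, ℓ h i ≤ 0) ∧
      ∀ w, (∀ i, ℓ w i ≤ 0) → ∃ c : (κ → ℕ) → ℕ, w = ∑ h ∈ H, c h • h := by
  classical
  obtain ⟨D₀, hfin, hsub, hD₀⟩ := dickson {w : κ → ℕ | (∀ i, ℓ w i ≤ 0) ∧ w ≠ 0}
    (fun w i => - ℓ w i) (fun w hw i => by have := hw.1 i; omega)
  refine ⟨hfin.toFinset, fun h hh => (hsub (hfin.mem_toFinset.1 hh)).1, ?_⟩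
  suffices H : ∀ N : ℕ, ∀ w : κ → ℕ, ∑ k, w k = N → (∀ i, ℓ w i ≤ 0) →
      ∃ c : (κ → ℕ) → ℕ, w = ∑ h ∈ hfin.toFinset, c h • h from fun w hw => H _ w rfl hw
  intro N
  induction N using Nat.strong_induction_on with
  | _ N ih =>
    intro w hN hw
    by_cases hw0 : w = 0
    · exact ⟨fun _ => 0, by simp [hw0]⟩
    · obtain ⟨h, hh, hle, hl⟩ := hD₀ w ⟨hw, hw0⟩
      have hh' := hsub hh
      have hsplit : w = (w - h) + h := by
        funext k
        have : h k ≤ w k := hle k
        simp only [Pi.add_apply, Pi.sub_apply]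
        omega
      have hsum : ∑ k, (w - h) k + ∑ k, h k = N := by
        rw [← hN, ← Finset.sum_add_distrib]
        refine Finset.sum_congr rfl fun k _ => ?_
        have : h k ≤ w k := hle k
        simp only [Pi.sub_apply]
        omega
      have hpos : 0 < ∑ k, h k := by
        rw [Finset.sum_pos_iff]
        by_contra hcon
        push Not at hcon
        apply hh'.2
        funext k
        have := hcon k (Finset.mem_univ k)
        simp only [Pi.zero_apply]
        omega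
      have hl' : ∀ i, ℓ (w - h) i ≤ 0 := by
        intro i
        have h1 := hadd (w - h) h
        rw [← hsplit] at h1
        have h2 := congrFun h1 i
        have h3 := hl i
        simp only [Pi.add_apply] at h2
        omega
      obtain ⟨c, hc⟩ := ih (∑ k, (w - h) k) (by omega) (w - h) rfl hl'
      refine ⟨fun x => c x + if x = h then 1 else 0, ?_⟩
      have hmem : h ∈ hfin.toFinset := hfin.mem_toFinset.2 hh
      have : ∑ x ∈ hfin.toFinset, (c x + if x = h then 1 else 0) • x =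
          ∑ x ∈ hfin.toFinset, c x • x + h := by
        simp_rw [add_smul, Finset.sum_add_distrib]
        congr 1
        rw [Finset.sum_eq_single h]
        · simp
        · intro b _ hb
          simp [hb]
        · intro h'
          exact absurd hmem h'
      rw [this, ← hc]
      exact hsplit

/-- A common denominator. -/
theorem common_denominator {μ ν : Type} [Fintype μ] [Fintype ν] (A : μ → ν → ℚ) (b : μ → ℚ) :
    ∃ N : ℕ, 0 < N ∧ ∃ (A' : μ → ν → ℤ) (b' : μ → ℤ), (∀ i j, (A' i j : ℚ) = N * A i j) ∧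
      ∀ i, (b' i : ℚ) = N * b i := by
  classical
  have hq : ∀ (q : ℚ) (N : ℕ), q.den ∣ N → ∃ z : ℤ, (z : ℚ) = N * q := by
    rintro q _ ⟨k, rfl⟩
    refine ⟨k * q.num, ?_⟩
    have h1 : (q.den : ℚ) * q = q.num := by
      rw [mul_comm]
      exact Rat.mul_den_eq_num q
    push_cast
    rw [← h1]
    ring
  set N := (∏ i, ∏ j, (A i j).den) * ∏ i, (b i).den with hN
  have hNpos : 0 < N := by
    rw [hN]
    apply Nat.mul_pos
    · exact Finset.prod_pos fun i _ => Finset.prod_pos fun j _ => (A i j).den_pos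
    · exact Finset.prod_pos fun i _ => (b i).den_pos
  have h1 : ∀ i j, ∃ z : ℤ, (z : ℚ) = N * A i j := fun i j => hq _ _ (by
    apply Dvd.dvd.mul_right
    exact (Finset.dvd_prod_of_mem (fun j => (A i j).den) (Finset.mem_univ j)).trans
      (Finset.dvd_prod_of_mem (fun i => ∏ j, (A i j).den) (Finset.mem_univ i)))
  have h2 : ∀ i, ∃ z : ℤ, (z : ℚ) = N * b i := fun i => hq _ _ (by
    apply Dvd.dvd.mul_left
    exact Finset.dvd_prod_of_mem (fun i => (b i).den) (Finset.mem_univ i))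
  choose A' hA' using h1
  choose b' hb' using h2
  exact ⟨N, hNpos, A', b', hA', hb'⟩

end Pool.Agent.V1190.Thin
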