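import Pool.Agent.V1190.Thin.Core

set_option autoImplicit false

/-!
# Cubic functions on the lattice points of an orthant: limits of directions
-/

open Filter Topology

namespace Pool.Agent.V1190.Thin

variable {ι : Type} [Fintype ι]

theorem mul_add_atBot {l : Filter ℕ} {t g b : ℕ → ℝ} {b₀ : ℝ} (ht : Tendsto t l atTop)
    (hg : Tendsto g l atBot) (hb : Tendsto b l (𝓝 b₀)) :
    Tendsto (fun j => t j * g j + b j) l atBot :=
  (ht.atTop_mul_atBot₀ hg).atBot_add hb

namespace Cub

variable {V : Type} [NormedAddCommGroup V] [NormedSpace ℝ V] (F : Cub V)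

theorem ev_expand (D η : V) (t : ℝ) : F.ev (t • D + η) =
    t * (t * (t * F.T D D D + (3 * F.T D D η + F.B D D)) + F.lin η D) + F.ev η := by
  unfold ev lin
  have e1 : F.T D η D = F.T D D η := F.T23 _ _ _
  have e2 : F.T η D D = F.T D D η := by rw [F.T12, F.T23]
  have e3 : F.T η η D = F.T D η η := by rw [F.T23, F.T12]
  have e4 : F.T η D η = F.T D η η := by rw [F.T12]
  have e5 : F.B η D = F.B D η := F.B12 _ _
  simp only [map_add, map_smul, add_apply, smul_apply, smul_eq_mul]
  rw [e1, e2, e3, e4, e5]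
  ring

theorem T_sub (x e : V) : F.T (x - e) (x - e) (x - e) =
    F.T x x x - 3 * F.T x x e + 3 * F.T x e e - F.T e e e := by
  have e1 : F.T x e x = F.T x x e := F.T23 _ _ _
  have e2 : F.T e x x = F.T x x e := by rw [F.T12, F.T23]
  have e3 : F.T e e x = F.T x e e := by rw [F.T23, F.T12]
  have e4 : F.T e x e = F.T x e e := by rw [F.T12]
  simp only [map_sub, sub_apply]
  rw [e1, e2, e3, e4]
  ring

theorem T_add (x e : V) (s : ℝ) : F.T (x + s • e) (x + s • e) (x + s • e) =
    F.T x x x + 3 * s * F.T x x e + 3 * s ^ 2 * F.T x e e + s ^ 3 * F.T e e e := by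
  have e1 : F.T x e x = F.T x x e := F.T23 _ _ _
  have e2 : F.T e x x = F.T x x e := by rw [F.T12, F.T23]
  have e3 : F.T e e x = F.T x e e := by rw [F.T23, F.T12]
  have e4 : F.T e x e = F.T x e e := by rw [F.T12]
  simp only [map_add, map_smul, add_apply, smul_apply, smul_eq_mul]
  rw [e1, e2, e3, e4]
  ring

end Cub

variable (F : Cub (EuclideanSpace ℝ ι))

/-- Integer points near a ray from the origin. -/
theorem near_ray (hN : NoThin F) (D : EuclideanSpace ℝ ι) (hD : ∀ i, 0 ≤ D i) (hD0 : D ≠ 0) :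
    ∃ (t : ℕ → ℝ) (η : ℕ → EuclideanSpace ℝ ι) (M : ℝ), Tendsto t atTop atTop ∧
      Tendsto η atTop (𝓝 0) ∧ ∀ᶠ j in atTop, M ≤ F.ev (t j • D + η j) := by
  obtain ⟨ε, hε, M, hM⟩ := hN 0 D (by simp) hD hD0
  have hd : ∀ j : ℕ, ∃ t : ℝ, (j : ℝ) < t ∧ ∃ w : ι → ℤ, ‖toE w - t • D‖ < 1 / ((j : ℝ) + 1) :=
    fun j => dirichlet D (by positivity) j
  choose t ht w hw using hd
  have ht' : Tendsto t atTop atTop :=
    tendsto_atTop_mono (fun j => (ht j).le) tendsto_natCast_atTop_atTop
  have hη0 : Tendsto (fun j => toE (w j) - t j • D) atTop (𝓝 0) := by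
    rw [tendsto_zero_iff_norm_tendsto_zero]
    refine squeeze_zero (fun j => norm_nonneg _) (fun j => (hw j).le) ?_
    exact tendsto_one_div_add_atTop_nhds_zero_nat
  refine ⟨t, fun j => toE (w j) - t j • D, M, ht', hη0, ?_⟩
  filter_upwards [(tendsto_zero_iff_norm_tendsto_zero.1 hη0).eventually (gt_mem_nhds hε)] with j hj
  have htj : 0 < t j := lt_of_le_of_lt (by positivity) (ht j)
  have e1 : t j • D + (toE (w j) - t j • D) = toE (w j) := by abel
  rw [e1]
  apply hM
  · apply isNat_of rfl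
    intro i
    have e2 : (toE (w j)) i = t j * D i + (toE (w j) - t j • D) i := by
      simp only [PiLp.sub_apply, PiLp.smul_apply, smul_eq_mul]
      ring
    have e3 : |(toE (w j) - t j • D) i| < 1 := by
      refine (abs_coord_le _ _).trans_lt ((hw j).trans_le ?_)
      rw [div_le_one (by positivity)]
      have : (0 : ℝ) ≤ j := by positivity
      linarith
    have e4 := (abs_lt.1 e3).1
    have e5 : 0 ≤ t j * D i := mul_nonneg htj.le (hD i)
    linarith
  · exact ⟨t j, htj.le, by simpa using hj.le⟩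

theorem claim1 (hN : NoThin F) (D : EuclideanSpace ℝ ι) (hD : ∀ i, 0 ≤ D i) :
    0 ≤ F.T D D D := by
  by_contra hneg
  push Not at hneg
  have hD0 : D ≠ 0 := by
    rintro rfl
    simp at hneg
  obtain ⟨t, η, M, ht, hη, hM⟩ := near_ray F hN D hD hD0
  have h1 : Tendsto (fun j => 3 * F.T D D (η j) + F.B D D) atTop (𝓝 (3 * F.T D D 0 + F.B D D)) :=
    (((F.T D D).continuous.tendsto 0).comp hη |>.const_mul 3).add_const _
  have h2 : Tendsto (fun j => F.lin (η j) D) atTop (𝓝 (F.lin 0 D)) :=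
    ((F.continuous_lin_left D).tendsto 0).comp hη
  have h3 : Tendsto (fun j => F.ev (η j)) atTop (𝓝 (F.ev 0)) :=
    (F.continuous_ev.tendsto 0).comp hη
  have h4 : Tendsto (fun j => t j * F.T D D D + (3 * F.T D D (η j) + F.B D D)) atTop atBot :=
    (ht.atTop_mul_const_of_neg hneg).atBot_add h1
  have h5 := mul_add_atBot ht (mul_add_atBot ht h4 h2) h3
  have h6 := h5.eventually (eventually_lt_atBot M)
  obtain ⟨j, hj1, hj2⟩ := (hM.and h6).exists
  rw [F.ev_expand] at hj1
  linarith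

theorem claim2 (hN : NoThin F) (D : EuclideanSpace ℝ ι) (hD : ∀ i, 0 ≤ D i)
    (hT : F.T D D D = 0) : 0 ≤ F.B D D := by
  by_contra hneg
  push Not at hneg
  have hD0 : D ≠ 0 := by
    rintro rfl
    simp at hneg
  obtain ⟨t, η, M, ht, hη, hM⟩ := near_ray F hN D hD hD0
  have h1 : Tendsto (fun j => 3 * F.T D D (η j) + F.B D D) atTop (𝓝 (3 * F.T D D 0 + F.B D D)) :=
    (((F.T D D).continuous.tendsto 0).comp hη |>.const_mul 3).add_const _
  have h2 : Tendsto (fun j => F.lin (η j) D) atTop (𝓝 (F.lin 0 D)) :=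
    ((F.continuous_lin_left D).tendsto 0).comp hη
  have h3 : Tendsto (fun j => F.ev (η j)) atTop (𝓝 (F.ev 0)) :=
    (F.continuous_ev.tendsto 0).comp hη
  have h4 : Tendsto (fun j => t j * (3 * F.T D D (η j) + F.B D D)) atTop atBot := by
    refine ht.atTop_mul_neg (C := F.B D D) hneg ?_
    simpa using h1
  have h5 := mul_add_atBot ht (h4.atBot_add h2) h3
  have h6 := h5.eventually (eventually_lt_atBot M)
  obtain ⟨j, hj1, hj2⟩ := (hM.and h6).exists
  rw [F.ev_expand, hT, mul_zero, zero_add] at hj1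
  linarith

theorem eq_sum_single (x : EuclideanSpace ℝ ι) [DecidableEq ι] :
    x = ∑ i, x i • EuclideanSpace.single i (1 : ℝ) := by
  ext j
  simp [Pi.single_apply]

/-- The limit direction of points of the orthant with nonpositive values. -/
theorem key (hN : NoThin F) {l : Filter ℕ} [l.NeBot] {ρ : ℕ → ℝ} {v : ℕ → EuclideanSpace ℝ ι}
    {D : EuclideanSpace ℝ ι} (hρ : Tendsto ρ l atTop) (hv : Tendsto v l (𝓝 D))
    (hone : ∀ i, ∀ᶠ k in l, 1 ≤ ρ k * v k i) (hF : ∀ᶠ k in l, F.ev (ρ k • v k) ≤ 0) :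
    F.B D D = 0 ∧ ∀ x, F.T D D x = 0 := by
  classical
  have hρ0 : ∀ᶠ k in l, 0 < ρ k := hρ.eventually (eventually_gt_atTop 0)
  have hnn : ∀ᶠ k in l, ∀ i, 0 ≤ v k i := by
    rw [eventually_all]
    intro i
    filter_upwards [hone i, hρ0] with k h1 h2
    by_contra hc
    push Not at hc
    nlinarith [mul_neg_of_pos_of_neg h2 hc]
  have hcoord : ∀ i, Tendsto (fun k => v k i) l (𝓝 (D i)) := by
    intro i
    have hc : Continuous fun x : EuclideanSpace ℝ ι => x i := by fun_prop
    exact (hc.tendsto D).comp hv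
  have hD : ∀ i, 0 ≤ D i := by
    intro i
    refine ge_of_tendsto (hcoord i) ?_
    filter_upwards [hnn] with k hk using hk i
  have hinv : Tendsto (fun k => (ρ k)⁻¹) l (𝓝 0) := tendsto_inv_atTop_zero.comp hρ
  have cTvvv : Tendsto (fun k => F.T (v k) (v k) (v k)) l (𝓝 (F.T D D D)) :=
    ((F.cT continuous_id continuous_id continuous_id).tendsto D).comp hv
  have cBvv : Tendsto (fun k => F.B (v k) (v k)) l (𝓝 (F.B D D)) :=
    ((F.cB continuous_id continuous_id).tendsto D).comp hv
  have cLv : Tendsto (fun k => F.L (v k)) l (𝓝 (F.L D)) := (F.L.continuous.tendsto D).comp hv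
  -- the cubic part
  have hT : F.T D D D = 0 := by
    apply le_antisymm _ (claim1 F hN D hD)
    have h1 : Tendsto (fun k => F.T (v k) (v k) (v k) + (ρ k)⁻¹ * F.B (v k) (v k) +
        (ρ k)⁻¹ * (ρ k)⁻¹ * F.L (v k) + (ρ k)⁻¹ * (ρ k)⁻¹ * (ρ k)⁻¹ * F.c) l
        (𝓝 (F.T D D D + 0 * F.B D D + 0 * 0 * F.L D + 0 * 0 * 0 * F.c)) :=
      ((cTvvv.add (hinv.mul cBvv)).add ((hinv.mul hinv).mul cLv)).add
        (((hinv.mul hinv).mul hinv).mul_const _)
    have h2 : F.T D D D + 0 * F.B D D + 0 * 0 * F.L D + 0 * 0 * 0 * F.c ≤ 0 := by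
      refine le_of_tendsto h1 ?_
      filter_upwards [hF, hρ0] with k h3 h4
      rw [F.ev_smul] at h3
      have h5 : F.T (v k) (v k) (v k) + (ρ k)⁻¹ * F.B (v k) (v k) +
        (ρ k)⁻¹ * (ρ k)⁻¹ * F.L (v k) + (ρ k)⁻¹ * (ρ k)⁻¹ * (ρ k)⁻¹ * F.c =
        (ρ k)⁻¹ ^ 3 * (ρ k ^ 3 * F.T (v k) (v k) (v k) + ρ k ^ 2 * F.B (v k) (v k) +
          ρ k * F.L (v k) + F.c) := by
        field_simp
      rw [h5]
      exact mul_nonpos_of_nonneg_of_nonpos (by positivity) h3
    linarith
  -- the quadratic part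
  have hB : F.B D D = 0 := by
    apply le_antisymm _ (claim2 F hN D hD hT)
    have h1 : Tendsto (fun k => F.B (v k) (v k) + (ρ k)⁻¹ * F.L (v k) +
        (ρ k)⁻¹ * (ρ k)⁻¹ * F.c) l (𝓝 (F.B D D + 0 * F.L D + 0 * 0 * F.c)) :=
      (cBvv.add (hinv.mul cLv)).add ((hinv.mul hinv).mul_const _)
    have h2 : F.B D D + 0 * F.L D + 0 * 0 * F.c ≤ 0 := by
      refine le_of_tendsto h1 ?_
      filter_upwards [hF, hρ0, hnn] with k h3 h4 h6
      rw [F.ev_smul] at h3
      have h7 := claim1 F hN (v k) h6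
      have h8 : 0 ≤ ρ k ^ 3 * F.T (v k) (v k) (v k) := by positivity
      have h5 : F.B (v k) (v k) + (ρ k)⁻¹ * F.L (v k) + (ρ k)⁻¹ * (ρ k)⁻¹ * F.c =
        (ρ k)⁻¹ ^ 2 * (ρ k ^ 2 * F.B (v k) (v k) + ρ k * F.L (v k) + F.c) := by
        field_simp
      rw [h5]
      exact mul_nonpos_of_nonneg_of_nonpos (by positivity) (by linarith)
    linarith
  refine ⟨hB, ?_⟩
  -- the gradient of the cubic part
  have hE : ∀ i, F.T D D (EuclideanSpace.single i (1 : ℝ)) = 0 := by
    intro i
    set e : EuclideanSpace ℝ ι := EuclideanSpace.single i (1 : ℝ) with he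
    apply le_antisymm
    · have cTe : Tendsto (fun k => F.T (v k) (v k) e) l (𝓝 (F.T D D e)) :=
        ((F.cT continuous_id continuous_id continuous_const).tendsto D).comp hv
      have cTee : Tendsto (fun k => F.T (v k) e e) l (𝓝 (F.T D e e)) :=
        ((F.cT continuous_id continuous_const continuous_const).tendsto D).comp hv
      have h1 : Tendsto (fun k => 3 * F.T (v k) (v k) e + F.B (v k) (v k) +
          (ρ k)⁻¹ * (F.L (v k) - 3 * F.T (v k) e e) + (ρ k)⁻¹ * (ρ k)⁻¹ * (F.T e e e + F.c)) l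
          (𝓝 (3 * F.T D D e + F.B D D + 0 * (F.L D - 3 * F.T D e e) + 0 * 0 * (F.T e e e + F.c))) :=
        (((cTe.const_mul 3).add cBvv).add (hinv.mul (cLv.sub (cTee.const_mul 3)))).add
          ((hinv.mul hinv).mul_const _)
      have h2 : 3 * F.T D D e + F.B D D + 0 * (F.L D - 3 * F.T D e e) +
          0 * 0 * (F.T e e e + F.c) ≤ 0 := by
        refine le_of_tendsto h1 ?_
        filter_upwards [hF, hρ0, hnn, hone i] with k h3 h4 h6 h7
        have h8 : ∀ j, 0 ≤ (ρ k • v k - e) j := by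
          intro j
          simp only [PiLp.sub_apply, PiLp.smul_apply, smul_eq_mul, he]
          by_cases hj : j = i
          · subst hj
            simp
            exact h7
          · simp [hj]
            exact mul_nonneg h4.le (h6 j)
        have h9 := claim1 F hN _ h8
        rw [F.T_sub] at h9
        simp only [map_smul, smul_apply, smul_eq_mul] at h9
        rw [F.ev_smul] at h3
        have h5 : 3 * F.T (v k) (v k) e + F.B (v k) (v k) +
          (ρ k)⁻¹ * (F.L (v k) - 3 * F.T (v k) e e) + (ρ k)⁻¹ * (ρ k)⁻¹ * (F.T e e e + F.c) =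
          (ρ k)⁻¹ ^ 2 * (3 * ρ k ^ 2 * F.T (v k) (v k) e + ρ k ^ 2 * F.B (v k) (v k) +
            ρ k * (F.L (v k) - 3 * F.T (v k) e e) + (F.T e e e + F.c)) := by
          field_simp
        rw [h5]
        refine mul_nonpos_of_nonneg_of_nonpos (by positivity) ?_
        nlinarith
      rw [hB] at h2
      linarith
    · have h1 : Tendsto (fun s : ℝ => 3 * F.T D D e + 3 * s * F.T D e e + s ^ 2 * F.T e e e)
          (𝓝[>] 0) (𝓝 (3 * F.T D D e + 3 * 0 * F.T D e e + 0 ^ 2 * F.T e e e)) := by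
        apply tendsto_nhdsWithin_of_tendsto_nhds
        apply Continuous.tendsto
        fun_prop
      have h2 : 0 ≤ 3 * F.T D D e + 3 * 0 * F.T D e e + 0 ^ 2 * F.T e e e := by
        refine ge_of_tendsto h1 ?_
        filter_upwards [self_mem_nhdsWithin] with s hs
        have hs0 : 0 < s := hs
        have h3 : ∀ j, 0 ≤ (D + s • e) j := by
          intro j
          simp only [PiLp.add_apply, PiLp.smul_apply, smul_eq_mul, he]
          have := hD j
          by_cases hj : j = i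
          · subst hj
            simp
            positivity
          · simp [hj]
            exact this
        have h4 := claim1 F hN _ h3
        rw [F.T_add, hT] at h4
        have h5 : 0 ≤ s * (3 * F.T D D e + 3 * s * F.T D e e + s ^ 2 * F.T e e e) := by
          nlinarith
        exact nonneg_of_mul_nonneg_right h5 hs0
      linarith
  intro x
  rw [eq_sum_single x, map_sum]
  apply Finset.sum_eq_zero
  intro i _
  rw [map_smul, hE i, smul_zero]

end Pool.Agent.V1190.Thin
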