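import Pool.Agent.V1190.Thin.Core

set_option autoImplicit false
set_option maxSynthPendingDepth 3

/-!
# Polynomials of degree at most three are cubic functions
-/

namespace Pool.Agent.V1190.Thin

variable {V : Type} [NormedAddCommGroup V] [NormedSpace ℝ V]

/-- Functions given by a `Cub`. -/
def IsCub (f : V → ℝ) : Prop := ∃ F : Cub V, ∀ x, F.ev x = f x

theorem IsCub.add {f g : V → ℝ} (hf : IsCub f) (hg : IsCub g) : IsCub (fun x => f x + g x) := by
  obtain ⟨F, hF⟩ := hf
  obtain ⟨G, hG⟩ := hg
  refine ⟨⟨F.T + G.T, F.B + G.B, F.L + G.L, F.c + G.c, ?_, ?_, ?_⟩, ?_⟩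
  · intro x y z
    simp only [add_apply]
    rw [F.T12, G.T12]
  · intro x y z
    simp only [add_apply]
    rw [F.T23, G.T23]
  · intro x y
    simp only [add_apply]
    rw [F.B12, G.B12]
  · intro x
    change _ = f x + g x
    rw [← hF, ← hG]
    simp only [Cub.ev, add_apply]
    ring

theorem IsCub.const_mul {f : V → ℝ} (hf : IsCub f) (r : ℝ) : IsCub (fun x => r * f x) := by
  obtain ⟨F, hF⟩ := hf
  refine ⟨⟨r • F.T, r • F.B, r • F.L, r * F.c, ?_, ?_, ?_⟩, ?_⟩
  · intro x y z
    simp only [smul_apply]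
    rw [F.T12]
  · intro x y z
    simp only [smul_apply]
    rw [F.T23]
  · intro x y
    simp only [smul_apply]
    rw [F.B12]
  · intro x
    change _ = r * f x
    rw [← hF]
    simp only [Cub.ev, smul_apply, smul_eq_mul]
    ring

theorem isCub_zero : IsCub (fun _ : V => (0 : ℝ)) :=
  ⟨⟨0, 0, 0, 0, fun _ _ _ => rfl, fun _ _ _ => rfl, fun _ _ => rfl⟩, fun x => by simp [Cub.ev]⟩

theorem IsCub.sum {κ : Type} (s : Finset κ) (f : κ → V → ℝ) (h : ∀ i ∈ s, IsCub (f i)) :
    IsCub (fun x => ∑ i ∈ s, f i x) := by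
  classical
  induction s using Finset.induction_on with
  | empty => simpa using isCub_zero
  | insert a s ha ih =>
    have h1 := (h a (Finset.mem_insert_self _ _)).add
      (ih fun i hi => h i (Finset.mem_insert_of_mem hi))
    simpa [Finset.sum_insert ha] using h1

/-- The product of three affine functions. -/
theorem isCub_three (α β γ : V →L[ℝ] ℝ) (a b c : ℝ) :
    IsCub (fun x => (α x + a) * (β x + b) * (γ x + c)) := by
  refine ⟨⟨(1 / 6 : ℝ) • (α.smulRight (β.smulRight γ) + α.smulRight (γ.smulRight β) +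
    β.smulRight (α.smulRight γ) + β.smulRight (γ.smulRight α) + γ.smulRight (α.smulRight β) +
    γ.smulRight (β.smulRight α)),
    (1 / 2 : ℝ) • (c • (α.smulRight β + β.smulRight α) + b • (α.smulRight γ + γ.smulRight α) +
      a • (β.smulRight γ + γ.smulRight β)),
    (b * c) • α + (a * c) • β + (a * b) • γ, a * b * c, ?_, ?_, ?_⟩, ?_⟩
  · intro x y z
    simp only [add_apply, smul_apply, ContinuousLinearMap.smulRight_apply, smul_eq_mul]
    ring
  · intro x y z
    simp only [add_apply, smul_apply, ContinuousLinearMap.smulRight_apply, smul_eq_mul]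
    ring
  · intro x y
    simp only [add_apply, smul_apply, ContinuousLinearMap.smulRight_apply, smul_eq_mul]
    ring
  · intro x
    simp only [Cub.ev, add_apply, smul_apply, ContinuousLinearMap.smulRight_apply, smul_eq_mul]
    ring

/-- Products of at most three affine functions. -/
theorem isCub_multiset {κ : Type} (α : κ → V →L[ℝ] ℝ) (a : κ → ℝ) (s : Multiset κ)
    (hs : s.card ≤ 3) : IsCub (fun x => (s.map fun i => α i x + a i).prod) := by
  obtain h | h | h | h : s.card = 0 ∨ s.card = 1 ∨ s.card = 2 ∨ s.card = 3 := by omega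
  · rw [Multiset.card_eq_zero] at h
    subst h
    simpa using isCub_three (0 : V →L[ℝ] ℝ) 0 0 1 1 1
  · obtain ⟨i, rfl⟩ := Multiset.card_eq_one.1 h
    simpa using isCub_three (α i) 0 0 (a i) 1 1
  · obtain ⟨i, j, rfl⟩ := Multiset.card_eq_two.1 h
    simpa using isCub_three (α i) (α j) 0 (a i) (a j) 1
  · obtain ⟨i, j, k, rfl⟩ := Multiset.card_eq_three.1 h
    simpa [mul_assoc] using isCub_three (α i) (α j) (α k) (a i) (a j) (a k)

/-- A polynomial of degree at most three composed with an affine map. -/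
theorem isCub_poly {n : ℕ} (p : MvPolynomial (Fin n) ℝ) (hp : p.totalDegree ≤ 3)
    (α : Fin n → V →L[ℝ] ℝ) (a : Fin n → ℝ) :
    IsCub (fun x => MvPolynomial.eval (fun i => α i x + a i) p) := by
  have h1 : (fun x => MvPolynomial.eval (fun i => α i x + a i) p) =
      fun x => ∑ s ∈ p.support, p.coeff s * ((Finsupp.toMultiset s).map
        fun i => α i x + a i).prod := by
    funext x
    rw [MvPolynomial.eval_eq]
    refine Finset.sum_congr rfl fun s _ => ?_
    rw [Finset.prod_multiset_map_count, Finsupp.toFinset_toMultiset]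
    congr 1
    refine Finset.prod_congr rfl fun i _ => ?_
    rw [Finsupp.count_toMultiset]
  rw [h1]
  refine IsCub.sum _ _ fun s hs => IsCub.const_mul ?_ _
  apply isCub_multiset
  rw [Finsupp.card_toMultiset]
  exact (MvPolynomial.le_totalDegree hs).trans hp

end Pool.Agent.V1190.Thin
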