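import Pool.Agent.V1190.Thin.Step
import Pool.Agent.V1190.Thin.Poly
import Pool.Agent.V1190.Thin.Gen

set_option autoImplicit false

/-!
# Unbounded thin rays of cubic functions on the lattice points of rational polyhedra
-/

open Filter Topology

namespace Pool.Agent.V1190.Thin

/-- The integer vector of a pair of natural vectors. -/
def XX (n : ℕ) : (Fin n ⊕ Fin n → ℕ) →+ (Fin n → ℤ) where
  toFun w j := (w (Sum.inl j) : ℤ) - w (Sum.inr j)
  map_zero' := by funext j; simp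
  map_add' w w' := by funext j; simp; ring

theorem thin_main {m n : ℕ} (A : Fin m → Fin n → ℚ) (b : Fin m → ℚ) (p : MvPolynomial (Fin n) ℝ)
    (hp : p.totalDegree ≤ 3)
    (hunb : ∀ M : ℝ, ∃ x : EuclideanSpace ℝ (Fin n), (∀ i, ∑ j, (A i j : ℝ) * x j ≤ b i) ∧
      (∀ j, ∃ z : ℤ, x j = z) ∧ MvPolynomial.eval (fun j => x j) p < M) :
    ∃ y d : EuclideanSpace ℝ (Fin n), d ≠ 0 ∧
      (∀ s : ℝ, 0 ≤ s → ∀ i, ∑ j, (A i j : ℝ) * (y + s • d) j ≤ b i) ∧
      ∀ ε > 0, ∀ M : ℝ, ∃ x : EuclideanSpace ℝ (Fin n), (∀ i, ∑ j, (A i j : ℝ) * x j ≤ b i) ∧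
        (∀ j, ∃ z : ℤ, x j = z) ∧ (∃ s : ℝ, 0 ≤ s ∧ ‖x - (y + s • d)‖ ≤ ε) ∧
        MvPolynomial.eval (fun j => x j) p < M := by
  classical
  obtain ⟨N, hN, A', b', hA', hb'⟩ := common_denominator A b
  have hNr : (0 : ℝ) < N := by exact_mod_cast hN
  have hAr : ∀ i j, (A' i j : ℝ) = N * (A i j : ℝ) := by
    intro i j
    have := hA' i j
    exact_mod_cast congrArg (Rat.cast : ℚ → ℝ) this
  have hbr : ∀ i, (b' i : ℝ) = N * (b i : ℝ) := by
    intro i
    have := hb' i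
    exact_mod_cast congrArg (Rat.cast : ℚ → ℝ) this
  have hP : ∀ (x : EuclideanSpace ℝ (Fin n)) i, ∑ j, (A i j : ℝ) * x j ≤ b i ↔
      ∑ j, (A' i j : ℝ) * x j ≤ b' i := by
    intro x i
    have h1 : ∑ j, (A' i j : ℝ) * x j = N * ∑ j, (A i j : ℝ) * x j := by
      rw [Finset.mul_sum]
      refine Finset.sum_congr rfl fun j _ => ?_
      rw [hAr]
      ring
    rw [h1, hbr]
    exact (mul_le_mul_iff_right₀ hNr).symm
  simp_rw [hP]
  -- the homogeneous part
  set X := XX n with hX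
  set ℓ : (Fin n ⊕ Fin n → ℕ) → Fin m → ℤ := fun w i => ∑ j, A' i j * X w j with hℓ
  have hadd : ∀ w w', ℓ (w + w') = ℓ w + ℓ w' := by
    intro w w'
    funext i
    simp only [hℓ, map_add, Pi.add_apply, mul_add, Finset.sum_add_distrib]
  -- the sequence
  choose x hx1 hx2 hx3 using fun k : ℕ => hunb (-(k : ℝ))
  choose z hz using hx2
  set w : ℕ → (Fin n ⊕ Fin n → ℕ) := fun k => Sum.elim (fun j => (z k j).toNat)
    (fun j => (-z k j).toNat) with hw
  have hXw : ∀ k, X (w k) = z k := by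
    intro k
    funext j
    have : X (w k) j = ((z k j).toNat : ℤ) - ((-z k j).toNat : ℤ) := rfl
    rw [this]
    omega
  obtain ⟨D₀, hD₀f, hD₀s, hD₀⟩ := dickson {w | ∀ i, 0 ≤ b' i - ℓ w i} (fun w i => b' i - ℓ w i)
    (fun w hw i => hw i)
  have hwD : ∀ k, w k ∈ {w | ∀ i, 0 ≤ b' i - ℓ w i} := by
    intro k i
    have h1 := (hP (x k) i).1 (hx1 k i)
    have h2 : (ℓ (w k) i : ℝ) ≤ b' i := by
      refine le_trans (le_of_eq ?_) h1
      simp only [hℓ, hXw]
      push_cast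
      refine Finset.sum_congr rfl fun j _ => ?_
      rw [hz]
    have h3 : ℓ (w k) i ≤ b' i := by exact_mod_cast h2
    omega
  set U : Ultrafilter ℕ := Filter.hyperfilter ℕ with hU
  obtain ⟨w₀, hw₀, hw₀e⟩ : ∃ w₀ ∈ D₀, ∀ᶠ k in (U : Filter ℕ), w₀ ≤ w k ∧
      ∀ i, b' i - ℓ w₀ i ≤ b' i - ℓ (w k) i := by
    have h1 : ∀ᶠ k in (U : Filter ℕ), ∃ w₀ ∈ D₀, w₀ ≤ w k ∧
      ∀ i, b' i - ℓ w₀ i ≤ b' i - ℓ (w k) i := Eventually.of_forall fun k => hD₀ _ (hwD k)
    exact (Ultrafilter.eventually_exists_mem_iff hD₀f).1 h1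
  obtain ⟨H, hH, hgen⟩ := generators ℓ hadd
  have hc : ∀ k, ∃ c : (Fin n ⊕ Fin n → ℕ) → ℕ, (w₀ ≤ w k ∧
      ∀ i, b' i - ℓ w₀ i ≤ b' i - ℓ (w k) i) → w k = w₀ + ∑ h ∈ H, c h • h := by
    intro k
    by_cases hk : w₀ ≤ w k ∧ ∀ i, b' i - ℓ w₀ i ≤ b' i - ℓ (w k) i
    · have hsplit : w k = w₀ + (w k - w₀) := by
        funext q
        have : w₀ q ≤ w k q := hk.1 q
        simp only [Pi.add_apply, Pi.sub_apply]
        omega
      obtain ⟨c, hc⟩ := hgen (w k - w₀) (by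
        intro i
        have h1 := hadd w₀ (w k - w₀)
        rw [← hsplit] at h1
        have h2 := congrFun h1 i
        have h3 := hk.2 i
        simp only [Pi.add_apply] at h2
        omega)
      exact ⟨c, fun _ => by rw [← hc]; exact hsplit⟩
    · exact ⟨fun _ => 0, fun h => absurd h hk⟩
  choose c hc using hc
  set J : Finset (Fin n ⊕ Fin n → ℕ) := H.filter (fun h => ∀ᶠ k in (U : Filter ℕ), 1 ≤ c k h)
    with hJ
  have hJH : J ⊆ H := Finset.filter_subset _ _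
  have hJ1 : ∀ᶠ k in (U : Filter ℕ), ∀ h : J, 1 ≤ c k h := by
    rw [eventually_all]
    intro h
    exact (Finset.mem_filter.1 h.2).2
  have hJ0 : ∀ᶠ k in (U : Filter ℕ), ∀ h ∈ H, h ∉ J → c k h = 0 := by
    rw [Filter.eventually_all_finset]
    intro h hh
    by_cases hhJ : h ∈ J
    · exact Eventually.of_forall fun k hk => absurd hhJ hk
    · have h1 : ¬ ∀ᶠ k in (U : Filter ℕ), 1 ≤ c k h := fun h2 =>
        hhJ (Finset.mem_filter.2 ⟨hh, h2⟩)
      have h2 := Ultrafilter.eventually_not.2 h1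
      filter_upwards [h2] with k hk _
      omega
  -- the affine map
  set Xe : (Fin n ⊕ Fin n → ℕ) → EuclideanSpace ℝ (Fin n) := fun h =>
    WithLp.toLp 2 (fun j => (X h j : ℝ)) with hXe
  set Φ : EuclideanSpace ℝ J →L[ℝ] EuclideanSpace ℝ (Fin n) :=
    ∑ h : J, (EuclideanSpace.proj h : EuclideanSpace ℝ J →L[ℝ] ℝ).smulRight (Xe h) with hΦ
  have hΦj : ∀ (q : EuclideanSpace ℝ J) j, (Φ q) j = ∑ h : J, q h * (X h j : ℝ) := by
    intro q j
    simp [hΦ, hXe]
  set x₀ : EuclideanSpace ℝ (Fin n) := Xe w₀ with hx₀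
  obtain ⟨F, hF⟩ := isCub_poly p hp
    (fun j => (EuclideanSpace.proj j : EuclideanSpace ℝ (Fin n) →L[ℝ] ℝ).comp Φ) (fun j => x₀ j)
  have hF' : ∀ q, F.ev q = MvPolynomial.eval (fun j => (Φ q + x₀) j) p := by
    intro q
    rw [hF]
    rfl
  set a : ℕ → EuclideanSpace ℝ J := fun k => WithLp.toLp 2 (fun h => (c k h : ℝ)) with ha
  have hax : ∀ᶠ k in (U : Filter ℕ), Φ (a k) + x₀ = x k := by
    filter_upwards [hw₀e, hJ0] with k h1 h2
    ext j
    have h3 := hc k h1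
    have h4 : z k j = X w₀ j + ∑ h ∈ J, (c k h : ℤ) * X h j := by
      rw [← hXw, h3, map_add, map_sum, Pi.add_apply, Finset.sum_apply]
      congr 1
      rw [← Finset.sum_subset hJH]
      · refine Finset.sum_congr rfl fun h _ => ?_
        rw [map_nsmul]
        simp
      · intro h hh hhJ
        rw [map_nsmul, h2 h hh hhJ]
        simp
    rw [PiLp.add_apply, hΦj, hz, h4]
    push_cast
    rw [add_comm, ← Finset.sum_coe_sort J]
  have hFa : Tendsto (fun k => F.ev (a k)) U atBot := by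
    have h1 : Tendsto (fun k : ℕ => -(k : ℝ)) U atBot := by
      have h2 : (U : Filter ℕ) ≤ atTop := by
        rw [← Nat.cofinite_eq_atTop]
        exact Filter.hyperfilter_le_cofinite
      exact (tendsto_neg_atTop_atBot.comp tendsto_natCast_atTop_atTop).mono_left h2
    refine tendsto_atBot_mono' _ ?_ h1
    filter_upwards [hax] with k hk
    rw [hF', hk]
    exact (hx3 k).le
  have hcore := core U (F := F) (a := a) (by
    filter_upwards [hJ1] with k hk h
    exact ⟨c k h, hk h, rfl⟩) hFa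
  unfold NoThin at hcore
  push Not at hcore
  obtain ⟨y, D, hy, hD, hD0, hthin⟩ := hcore
  -- points of the image
  have himg : ∀ q : EuclideanSpace ℝ J, (∀ h, 0 ≤ q h) → ∀ i,
      ∑ j, (A' i j : ℝ) * (Φ q + x₀) j ≤ b' i := by
    intro q hq i
    have h1 : ∑ j, (A' i j : ℝ) * (Φ q + x₀) j = ∑ h : J, q h * (ℓ h i : ℝ) + (ℓ w₀ i : ℝ) := by
      have h2 : ∀ j, (Φ q + x₀) j = ∑ h : J, q h * (X h j : ℝ) + (X w₀ j : ℝ) := by
        intro j
        rw [PiLp.add_apply, hΦj]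
      simp only [h2, mul_add, Finset.sum_add_distrib, hℓ]
      push_cast
      congr 1
      simp only [Finset.mul_sum]
      rw [Finset.sum_comm]
      refine Finset.sum_congr rfl fun h _ => Finset.sum_congr rfl fun j _ => ?_
      ring
    rw [h1]
    have h2 : ∑ h : J, q h * (ℓ h i : ℝ) ≤ 0 := by
      apply Finset.sum_nonpos
      intro h _
      have h3 : (ℓ h i : ℝ) ≤ 0 := by exact_mod_cast hH h (Finset.mem_filter.1 h.2).1 i
      exact mul_nonpos_of_nonneg_of_nonpos (hq h) h3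
    have h3 : (ℓ w₀ i : ℝ) ≤ b' i := by
      have h4 : 0 ≤ b' i - ℓ w₀ i := hD₀s hw₀ i
      exact_mod_cast (by omega : ℓ w₀ i ≤ b' i)
    linarith
  have hdiff : ∀ (q : EuclideanSpace ℝ J) (s : ℝ),
      Φ q + x₀ - (Φ y + x₀ + s • Φ D) = Φ (q - (y + s • D)) := by
    intro q s
    rw [map_sub, map_add, map_smul]
    abel
  have hint : ∀ q : EuclideanSpace ℝ J, IsNat q → ∀ j, ∃ t : ℤ, (Φ q + x₀) j = t := by
    intro q hq j
    choose mq hmq using hq
    refine ⟨∑ h : J, (mq h : ℤ) * X h j + X w₀ j, ?_⟩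
    rw [PiLp.add_apply, hΦj]
    push_cast
    congr 1
    refine Finset.sum_congr rfl fun h _ => ?_
    rw [hmq]
  refine ⟨Φ y + x₀, Φ D, ?_, ?_, ?_⟩
  · intro h0
    have hcont : Continuous fun x : EuclideanSpace ℝ (Fin n) =>
        MvPolynomial.eval (fun j => x j) p := by
      have h1 : Continuous fun x : EuclideanSpace ℝ (Fin n) => (fun j => x j : Fin n → ℝ) := by
        fun_prop
      exact (MvPolynomial.continuous_eval p).comp h1
    have hcomp : IsCompact (Metric.closedBall (Φ y + x₀) ‖Φ‖) := isCompact_closedBall _ _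
    obtain ⟨M, hM⟩ := (hcomp.image hcont).bddBelow
    obtain ⟨q, hq1, ⟨s, hs, hq2⟩, hq3⟩ := hthin 1 one_pos M
    have h2 := hdiff q s
    rw [h0, smul_zero, add_zero] at h2
    have h3 : Φ q + x₀ ∈ Metric.closedBall (Φ y + x₀) ‖Φ‖ := by
      rw [mem_closedBall_iff_norm, h2]
      calc ‖Φ (q - (y + s • D))‖ ≤ ‖Φ‖ * ‖q - (y + s • D)‖ := Φ.le_opNorm _
        _ ≤ ‖Φ‖ * 1 := mul_le_mul_of_nonneg_left hq2 (norm_nonneg _)
        _ = ‖Φ‖ := mul_one _
    have h4 := hM ⟨_, h3, rfl⟩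
    rw [hF'] at hq3
    exact absurd h4 (not_le.2 hq3)
  · intro s hs i
    have h1 : Φ y + x₀ + s • Φ D = Φ (y + s • D) + x₀ := by
      rw [map_add, map_smul]
      abel
    rw [h1]
    apply himg
    intro h
    simp only [PiLp.add_apply, PiLp.smul_apply, smul_eq_mul]
    have := hy h
    have := mul_nonneg hs (hD h)
    linarith
  · intro ε hε M
    obtain ⟨q, hq1, ⟨s, hs, hq2⟩, hq3⟩ := hthin (ε / (‖Φ‖ + 1)) (by positivity) M
    refine ⟨Φ q + x₀, ?_, hint q hq1, ⟨s, hs, ?_⟩, ?_⟩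
    · intro i
      apply himg
      intro h
      obtain ⟨t, ht⟩ := hq1 h
      rw [ht]
      positivity
    · rw [hdiff]
      calc ‖Φ (q - (y + s • D))‖ ≤ ‖Φ‖ * ‖q - (y + s • D)‖ := Φ.le_opNorm _
        _ ≤ (‖Φ‖ + 1) * (ε / (‖Φ‖ + 1)) :=
          mul_le_mul (by linarith) hq2 (norm_nonneg _) (by positivity)
        _ = ε := by field_simp
    · rw [hF'] at hq3
      exact hq3

end Pool.Agent.V1190.Thin
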