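import Pool.Agent.V1190.Thin.Key

set_option autoImplicit false

/-!
# Cubic functions on the lattice points of an orthant: the induction on subspaces
-/

open Filter Topology

namespace Pool.Agent.V1190.Thin

variable {ι : Type} [Fintype ι]

/-- Good subspaces for a sequence `a`. -/
structure Good (F : Cub (EuclideanSpace ℝ ι)) (a : ℕ → EuclideanSpace ℝ ι) (U : Filter ℕ)
    (L : Submodule ℝ (EuclideanSpace ℝ ι)) : Prop where
  hT : ∀ u ∈ L, ∀ v ∈ L, ∀ x, F.T u v x = 0
  hB : ∀ u ∈ L, ∀ v ∈ L, F.B u v = 0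
  deep : ∀ i, (∃ v ∈ L, v i ≠ 0) →
    Tendsto (fun k => (L.starProjection (a k)) i / (‖a k - L.starProjection (a k)‖ + 1)) U atTop

variable {F : Cub (EuclideanSpace ℝ ι)} {a : ℕ → EuclideanSpace ℝ ι}

theorem good_bot (U : Filter ℕ) : Good F a U ⊥ := by
  refine ⟨?_, ?_, ?_⟩
  · intro u hu v _ x
    rw [Submodule.mem_bot] at hu
    simp [hu]
  · intro u hu v _
    rw [Submodule.mem_bot] at hu
    simp [hu]
  · rintro i ⟨v, hv, hvi⟩
    rw [Submodule.mem_bot] at hv
    simp [hv] at hvi

/-- The coordinates of the projections are large. -/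
theorem Good.large {U : Filter ℕ} {L : Submodule ℝ (EuclideanSpace ℝ ι)} (h : Good F a U L)
    (C : ℝ) : ∀ᶠ k in U, ∀ i, (∃ v ∈ L, v i ≠ 0) →
      C * (‖a k - L.starProjection (a k)‖ + 1) ≤ (L.starProjection (a k)) i := by
  rw [eventually_all]
  intro i
  by_cases hi : ∃ v ∈ L, v i ≠ 0
  · filter_upwards [(h.deep i hi).eventually (eventually_ge_atTop C)] with k hk _
    rw [le_div_iff₀ (by positivity)] at hk
    exact hk
  · exact Eventually.of_forall fun k hk => absurd hk hi

theorem step (hN : NoThin F) {U : Ultrafilter ℕ} {L : Submodule ℝ (EuclideanSpace ℝ ι)}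
    (h : Good F a U L) (ha : ∀ᶠ k in (U : Filter ℕ), ∀ i, ∃ m : ℕ, 1 ≤ m ∧ a k i = m)
    (hF : Tendsto (fun k => F.ev (a k)) U atBot)
    (hρ : Tendsto (fun k => ‖a k - L.starProjection (a k)‖) U atTop) :
    ∃ L', L < L' ∧ Good F a U L' := by
  classical
  set P := L.starProjection with hP
  set u : ℕ → EuclideanSpace ℝ ι := fun k => P (a k) with hu
  set y : ℕ → EuclideanSpace ℝ ι := fun k => a k - P (a k) with hy
  set ρ : ℕ → ℝ := fun k => ‖a k - P (a k)‖ with hρd
  have huL : ∀ k, u k ∈ L := fun k => Submodule.starProjection_apply_mem L _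
  have hyL : ∀ k, y k ∈ Lᗮ := fun k => Submodule.sub_starProjection_mem_orthogonal _
  have hay : ∀ k, a k = y k + u k := fun k => by simp [hy, hu]
  have hρ0 : ∀ᶠ k in (U : Filter ℕ), 0 < ρ k := hρ.eventually (eventually_gt_atTop 0)
  -- the limit direction
  set v : ℕ → EuclideanSpace ℝ ι := fun k => (ρ k)⁻¹ • y k with hv
  have hρv : ∀ᶠ k in (U : Filter ℕ), y k = ρ k • v k := by
    filter_upwards [hρ0] with k hk
    simp only [hv]
    rw [smul_smul, mul_inv_cancel₀ hk.ne', one_smul]
  have hvn : ∀ᶠ k in (U : Filter ℕ), ‖v k‖ = 1 := by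
    filter_upwards [hρ0] with k hk
    simp only [hv]
    rw [norm_smul, norm_inv, Real.norm_eq_abs, abs_of_pos hk]
    exact inv_mul_cancel₀ hk.ne'
  obtain ⟨d, hd⟩ : ∃ d, Tendsto v U (𝓝 d) := by
    have hc : IsCompact (Metric.closedBall (0 : EuclideanSpace ℝ ι) 1) :=
      isCompact_closedBall 0 1
    have h1 : ((U.map v : Ultrafilter (EuclideanSpace ℝ ι)) : Filter _) ≤
        𝓟 (Metric.closedBall (0 : EuclideanSpace ℝ ι) 1) := by
      rw [le_principal_iff, Ultrafilter.coe_map, Filter.mem_map]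
      filter_upwards [hvn] with k hk
      simp [hk]
    obtain ⟨d, -, hd⟩ := hc.ultrafilter_le_nhds _ h1
    exact ⟨d, hd⟩
  have hdn : ‖d‖ = 1 := by
    have h1 : Tendsto (fun k => ‖v k‖) U (𝓝 ‖d‖) := hd.norm
    have h2 : Tendsto (fun k => ‖v k‖) U (𝓝 1) :=
      tendsto_const_nhds.congr' (hvn.mono fun k hk => hk.symm)
    exact tendsto_nhds_unique h1 h2
  have hdL : d ∈ Lᗮ := by
    refine (Submodule.isClosed_orthogonal L).mem_of_tendsto hd (Eventually.of_forall fun k => ?_)
    exact Submodule.smul_mem _ _ (hyL k)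
  have hdi : d ∉ L := by
    intro hc
    have : inner ℝ d d = (0 : ℝ) := (Submodule.mem_orthogonal L d).1 hdL d hc
    rw [real_inner_self_eq_norm_sq, hdn] at this
    norm_num at this
  have hcoord : ∀ i, Tendsto (fun k => v k i) U (𝓝 (d i)) := by
    intro i
    have hc : Continuous fun x : EuclideanSpace ℝ ι => x i := by fun_prop
    exact (hc.tendsto d).comp hd
  have hzero : ∀ i, ¬ (∃ v ∈ L, v i ≠ 0) → ∀ w ∈ L, w i = 0 := by
    intro i hi w hw
    by_contra hc
    exact hi ⟨w, hw, hc⟩
  have hyi : ∀ i, ¬ (∃ v ∈ L, v i ≠ 0) → ∀ k, y k i = a k i := by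
    intro i hi k
    simp only [hy, PiLp.sub_apply]
    rw [hzero i hi _ (huL k), sub_zero]
  have hd0 : ∀ i, ¬ (∃ v ∈ L, v i ≠ 0) → 0 ≤ d i := by
    intro i hi
    refine ge_of_tendsto (hcoord i) ?_
    filter_upwards [ha, hρ0] with k h1 h2
    obtain ⟨m, hm, hm2⟩ := h1 i
    simp only [hv, PiLp.smul_apply, smul_eq_mul]
    rw [hyi i hi, hm2]
    positivity
  -- the key computation
  have hkey : ∀ w ∈ L, (∀ i, (∃ v ∈ L, v i ≠ 0) → |d i| < w i) →
      F.B (w + d) (w + d) = 0 ∧ ∀ x, F.T (w + d) (w + d) x = 0 := by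
    intro w hw hwi
    have hvw : Tendsto (fun k => w + v k) U (𝓝 (w + d)) := hd.const_add w
    refine key F hN hρ hvw ?_ ?_
    · intro i
      by_cases hi : ∃ v ∈ L, v i ≠ 0
      · have h1 : Tendsto (fun k => ρ k * (w + v k) i) U atTop := by
          refine hρ.atTop_mul_pos (C := w i + d i) ?_ ?_
          · have := hwi i hi
            have := neg_abs_le (d i)
            linarith
          · simpa using (hcoord i).const_add (w i)
        exact h1.eventually (eventually_ge_atTop 1)
      · filter_upwards [ha, hρv] with k h1 h2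
        obtain ⟨m, hm, hm2⟩ := h1 i
        have h3 : ρ k * (w + v k) i = y k i := by
          rw [h2]
          simp only [PiLp.add_apply, PiLp.smul_apply, smul_eq_mul]
          rw [hzero i hi w hw]
          ring
        rw [h3, hyi i hi, hm2]
        exact_mod_cast hm
    · -- comparison with the sequence
      obtain ⟨C, hC0, hC⟩ : ∃ C : ℝ, 0 ≤ C ∧ ∀ i, |w i| + 1 ≤ C := by
        refine ⟨∑ i, |w i| + 1, by positivity, fun i => ?_⟩
        have : |w i| ≤ ∑ i, |w i| :=
          Finset.single_le_sum (fun j _ => abs_nonneg (w j)) (Finset.mem_univ i)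
        linarith
      filter_upwards [ha, hρv, h.large C, hF.eventually (eventually_le_atBot 0), hρ0] with
        k h1 h2 h3 h4 h5
      have e1 : F.ev (ρ k • (w + v k)) = F.ev (y k) + F.lin (y k) (ρ k • w) := by
        rw [smul_add, ← h2, add_comm, F.ev_add]
        · intro x
          simp [h.hT w hw w hw]
        · simp [h.hB w hw w hw]
      have e2 : F.ev (a k) = F.ev (y k) + F.lin (y k) (u k) := by
        rw [hay k, F.ev_add _ _ (h.hT _ (huL k) _ (huL k)) (h.hB _ (huL k) _ (huL k))]
      have e3 : 0 ≤ F.lin (a k - u k) (u k - ρ k • w) := by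
        refine ntr F hN L h.hT h.hB (a k) ?_ (u k) (huL k) _
          (L.sub_mem (huL k) (L.smul_mem _ hw)) ?_
        · intro i
          obtain ⟨m, -, hm2⟩ := h1 i
          exact ⟨m, hm2⟩
        · intro i hi
          have h6 := h3 i hi
          have h7 := hC i
          have h8 : (u k) i = (P (a k)) i := rfl
          simp only [PiLp.sub_apply, PiLp.smul_apply, smul_eq_mul]
          rw [h8]
          have h9 : ρ k * w i ≤ ρ k * |w i| := mul_le_mul_of_nonneg_left (le_abs_self _) h5.le
          have h10 : (|w i| + 1) * (ρ k + 1) ≤ C * (ρ k + 1) :=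
            mul_le_mul_of_nonneg_right h7 (by positivity)
          have h11 : 0 ≤ |w i| := abs_nonneg _
          have h12 : C * (ρ k + 1) ≤ (P (a k)) i := h6
          nlinarith
      have e4 : a k - u k = y k := rfl
      rw [e4, F.lin_sub] at e3
      rw [e1]
      linarith
  -- vanishing on the larger space
  have hex : ∀ w ∈ L, ∃ w' ∈ L, (∀ i, (∃ v ∈ L, v i ≠ 0) → |d i| < w' i) ∧
      (∀ i, (∃ v ∈ L, v i ≠ 0) → |d i| < (w' + w) i) := by
    intro w hw
    obtain ⟨C, hC0, hC⟩ : ∃ C : ℝ, 0 ≤ C ∧ ∀ i, |w i| + |d i| + 1 ≤ C := by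
      refine ⟨∑ i, (|w i| + |d i|) + 1, by positivity, fun i => ?_⟩
      have : |w i| + |d i| ≤ ∑ i, (|w i| + |d i|) :=
        Finset.single_le_sum (f := fun i => |w i| + |d i|) (fun j _ => by positivity)
          (Finset.mem_univ i)
      linarith
    obtain ⟨k, hk⟩ := (h.large C).exists
    have hk2 : ∀ i, (∃ v ∈ L, v i ≠ 0) → |w i| + |d i| + 1 ≤ (u k) i := by
      intro i hi
      have h1 := hk i hi
      have h2 := hC i
      have h3 : C * 1 ≤ C * (‖a k - P (a k)‖ + 1) :=
        mul_le_mul_of_nonneg_left (by linarith [norm_nonneg (a k - P (a k))]) hC0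
      have h4 : (u k) i = (P (a k)) i := rfl
      rw [h4]
      linarith
    refine ⟨u k, huL k, fun i hi => ?_, fun i hi => ?_⟩
    · have := hk2 i hi
      have := abs_nonneg (w i)
      linarith
    · have := hk2 i hi
      have := neg_abs_le (w i)
      simp only [PiLp.add_apply]
      linarith
  have hvalid : ∀ w ∈ L, (∀ i, (∃ v ∈ L, v i ≠ 0) → |d i| < w i) →
      (F.B w d = 0 ∧ F.B d d = 0) ∧ ∀ x, F.T w d x = 0 ∧ F.T d d x = 0 := by
    intro w hw hwi
    obtain ⟨b1, t1⟩ := hkey w hw hwi
    obtain ⟨b2, t2⟩ := hkey ((2 : ℝ) • w) (L.smul_mem _ hw) (by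
      intro i hi
      have h1 := hwi i hi
      have h2 := abs_nonneg (d i)
      simp only [PiLp.smul_apply, smul_eq_mul]
      linarith)
    have B0 := h.hB w hw w hw
    have Bs := F.B12 d w
    simp only [map_add, map_smul, add_apply, smul_apply, smul_eq_mul, B0, Bs] at b1 b2
    refine ⟨⟨by linarith, by linarith⟩, fun x => ?_⟩
    have T0 := h.hT w hw w hw x
    have Ts := F.T12 d w x
    have t1 := t1 x
    have t2 := t2 x
    simp only [map_add, map_smul, add_apply, smul_apply, smul_eq_mul, T0, Ts] at t1 t2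
    exact ⟨by linarith, by linarith⟩
  have hall : ∀ w ∈ L, F.B w d = 0 ∧ ∀ x, F.T w d x = 0 := by
    intro w hw
    obtain ⟨w', hw', h1, h2⟩ := hex w hw
    obtain ⟨⟨b1, -⟩, t1⟩ := hvalid w' hw' h1
    obtain ⟨⟨b2, -⟩, t2⟩ := hvalid (w' + w) (L.add_mem hw' hw) h2
    simp only [map_add, add_apply, b1] at b2
    refine ⟨by linarith, fun x => ?_⟩
    have t1 := (t1 x).1
    have t2 := (t2 x).1
    simp only [map_add, add_apply, t1] at t2
    linarith
  obtain ⟨hBdd, hTdd⟩ : F.B d d = 0 ∧ ∀ x, F.T d d x = 0 := by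
    obtain ⟨w', hw', h1, -⟩ := hex 0 L.zero_mem
    obtain ⟨⟨-, b1⟩, t1⟩ := hvalid w' hw' h1
    exact ⟨b1, fun x => (t1 x).2⟩
  -- the larger space
  set L' := L ⊔ Submodule.span ℝ {d} with hL'
  have hmem : ∀ x ∈ L', ∃ w ∈ L, ∃ s : ℝ, x = w + s • d := by
    intro x hx
    obtain ⟨w, hw, z, hz, rfl⟩ := Submodule.mem_sup.1 hx
    obtain ⟨s, rfl⟩ := Submodule.mem_span_singleton.1 hz
    exact ⟨w, hw, s, rfl⟩
  have hdL' : d ∈ L' := Submodule.mem_sup_right (Submodule.mem_span_singleton_self d)
  have hLL' : L ≤ L' := le_sup_left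
  -- the projection on the larger space
  set c : ℕ → ℝ := fun k => inner ℝ d (y k) with hc
  have hproj : ∀ k, L'.starProjection (a k) = u k + c k • d := by
    intro k
    apply Submodule.eq_starProjection_of_mem_of_inner_eq_zero
    · exact L'.add_mem (hLL' (huL k)) (L'.smul_mem _ hdL')
    · intro x hx
      obtain ⟨w, hw, s, rfl⟩ := hmem x hx
      have e1 : a k - (u k + c k • d) = y k - c k • d := by
        simp only [hy, hu]
        abel
      have e2 : inner ℝ (y k) w = (0 : ℝ) := (Submodule.mem_orthogonal' L _).1 (hyL k) w hw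
      have e3 : inner ℝ d w = (0 : ℝ) := (Submodule.mem_orthogonal' L _).1 hdL w hw
      have e4 : inner ℝ (y k) d = c k := real_inner_comm _ _
      have e5 : inner ℝ d d = (1 : ℝ) := by rw [real_inner_self_eq_norm_sq, hdn]; norm_num
      rw [e1]
      simp only [inner_sub_left, inner_add_right, inner_smul_left, inner_smul_right, e2, e3, e4, e5]
      simp
  have hres : ∀ k, a k - L'.starProjection (a k) = y k - c k • d := by
    intro k
    rw [hproj k]
    simp only [hy, hu]
    abel
  have hcρ : Tendsto (fun k => c k / ρ k) U (𝓝 1) := by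
    have h1 : Tendsto (fun k => (inner ℝ d (v k) : ℝ)) U (𝓝 (inner ℝ d d)) :=
      tendsto_const_nhds.inner hd
    rw [real_inner_self_eq_norm_sq, hdn] at h1
    norm_num at h1
    refine h1.congr fun k => ?_
    simp only [hv, hc, inner_smul_right]
    rw [inv_mul_eq_div]
  have hrat : Tendsto (fun k => ‖y k - c k • d‖ / ρ k) U (𝓝 0) := by
    have h1 : Tendsto (fun k => ‖v k - (c k / ρ k) • d‖) U (𝓝 ‖d - (1 : ℝ) • d‖) :=
      (hd.sub (hcρ.smul_const d)).norm
    rw [one_smul, sub_self, norm_zero] at h1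
    refine h1.congr' ?_
    filter_upwards [hρ0] with k hk
    have : v k - (c k / ρ k) • d = (ρ k)⁻¹ • (y k - c k • d) := by
      have hvk : v k = (ρ k)⁻¹ • y k := rfl
      rw [hvk, smul_sub (ρ k)⁻¹ (y k) (c k • d), smul_smul, inv_mul_eq_div]
    rw [this, norm_smul, norm_inv, Real.norm_eq_abs, abs_of_pos hk, inv_mul_eq_div]
  refine ⟨L', ?_, ?_, ?_, ?_⟩
  · refine lt_of_le_of_ne hLL' ?_
    intro hE
    rw [← hE] at hdL'
    exact hdi hdL'
  · intro x hx x' hx' z
    obtain ⟨w, hw, s, rfl⟩ := hmem x hx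
    obtain ⟨w', hw', s', rfl⟩ := hmem x' hx'
    have e1 := h.hT w hw w' hw' z
    have e2 := (hall w hw).2 z
    have e3 := (hall w' hw').2 z
    rw [F.T12] at e3
    simp only [map_add, map_smul, add_apply, smul_apply, smul_eq_mul, e1, e2, e3, hTdd z]
    ring
  · intro x hx x' hx'
    obtain ⟨w, hw, s, rfl⟩ := hmem x hx
    obtain ⟨w', hw', s', rfl⟩ := hmem x' hx'
    have e1 := h.hB w hw w' hw'
    have e2 := (hall w hw).1
    have e3 := (hall w' hw').1
    rw [F.B12] at e3
    simp only [map_add, map_smul, add_apply, smul_apply, smul_eq_mul, e1, e2, e3, hBdd]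
    ring
  · intro i hi'
    have hform : ∀ k, (L'.starProjection (a k)) i / (‖a k - L'.starProjection (a k)‖ + 1) =
        (u k i + c k * d i) / (‖y k - c k • d‖ + 1) := by
      intro k
      rw [hres k, hproj k]
      simp
    simp_rw [hform]
    by_cases hi : ∃ v ∈ L, v i ≠ 0
    · have h1 : Tendsto (fun k => (P (a k)) i / (‖a k - P (a k)‖ + 1) - 1) U atTop :=
        tendsto_atTop_add_const_right _ _ (h.deep i hi)
      refine tendsto_atTop_mono' _ ?_ h1
      filter_upwards [hρ0, hrat.eventually (gt_mem_nhds (zero_lt_one)),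
        (h.deep i hi).eventually (eventually_ge_atTop 1)] with k h2 h3 h4
      have h5 : ‖y k - c k • d‖ ≤ ρ k := by
        rw [div_lt_one h2] at h3
        exact h3.le
      have h6 : |c k| ≤ ρ k := by
        have := abs_real_inner_le_norm d (y k)
        rw [hdn, one_mul] at this
        exact this
      have h7 : |d i| ≤ 1 := (abs_coord_le d i).trans hdn.le
      have h8 : |c k * d i| ≤ ρ k := by
        rw [abs_mul]
        calc |c k| * |d i| ≤ ρ k * 1 := mul_le_mul h6 h7 (abs_nonneg _) h2.le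
          _ = ρ k := mul_one _
      have h9 := neg_abs_le (c k * d i)
      have h10 : ρ k + 1 ≤ (P (a k)) i := by
        have : (1 : ℝ) ≤ (P (a k)) i / (ρ k + 1) := h4
        rw [le_div_iff₀ (by positivity)] at this
        linarith
      have h11 : (u k) i = (P (a k)) i := rfl
      have h12 : (P (a k)) i / (‖a k - P (a k)‖ + 1) - 1 = ((P (a k)) i - (ρ k + 1)) / (ρ k + 1) := by
        have : ρ k + 1 ≠ 0 := by positivity
        rw [sub_div, div_self this]
      rw [h12, h11]
      apply div_le_div₀ (by linarith) (by linarith) (by positivity) (by linarith)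
    · have hui : ∀ k, u k i = 0 := fun k => hzero i hi _ (huL k)
      have hdi' : 0 < d i := by
        obtain ⟨x, hx, hxi⟩ := hi'
        obtain ⟨w, hw, s, rfl⟩ := hmem x hx
        have h1 := hzero i hi w hw
        have h2 := hd0 i hi
        rcases h2.lt_or_eq with h3 | h3
        · exact h3
        · exfalso
          apply hxi
          simp only [PiLp.add_apply, PiLp.smul_apply, smul_eq_mul, h1, ← h3]
          ring
      simp_rw [hui, zero_add]
      have h1 : Tendsto (fun k => c k / ρ k * d i) U (𝓝 (1 * d i)) := hcρ.mul_const _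
      rw [one_mul] at h1
      have h2 : Tendsto (fun k => (‖y k - c k • d‖ / ρ k + 1 / ρ k)⁻¹) U atTop := by
        apply Tendsto.inv_tendsto_nhdsGT_zero
        rw [tendsto_nhdsWithin_iff]
        constructor
        · have h3 : Tendsto (fun k => 1 / ρ k) U (𝓝 0) := by
            simp_rw [one_div]
            exact tendsto_inv_atTop_zero.comp hρ
          simpa using hrat.add h3
        · filter_upwards [hρ0] with k hk
          have : 0 < 1 / ρ k := by positivity
          have : 0 ≤ ‖y k - c k • d‖ / ρ k := by positivity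
          simp only [Set.mem_Ioi]
          linarith
      refine (h1.pos_mul_atTop hdi' h2).congr' ?_
      filter_upwards [hρ0] with k hk
      have h3 : ‖y k - c k • d‖ + 1 ≠ 0 := by positivity
      field_simp

/-- **The core**: a cubic function which tends to `-∞` along a sequence of lattice points of the
open orthant has an unbounded thin ray. -/
theorem core (U : Ultrafilter ℕ) (ha : ∀ᶠ k in (U : Filter ℕ), ∀ i, ∃ m : ℕ, 1 ≤ m ∧ a k i = m)
    (hF : Tendsto (fun k => F.ev (a k)) U atBot) : ¬ NoThin F := by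
  intro hN
  -- a maximal good subspace
  obtain ⟨L, hL, hmax⟩ : ∃ L, Good F a U L ∧ ∀ L', Good F a U L' → ¬ L < L' := by
    have hwf : WellFounded ((· > ·) : Submodule ℝ (EuclideanSpace ℝ ι) → _ → Prop) :=
      wellFounded_gt
    obtain ⟨L, hL, hm⟩ := hwf.has_min {L | Good F a U L} ⟨⊥, good_bot _⟩
    exact ⟨L, hL, fun L' h1 h2 => hm L' h1 h2⟩
  by_cases hb : Tendsto (fun k => ‖a k - L.starProjection (a k)‖) U atTop
  · obtain ⟨L', h1, h2⟩ := step hN hL ha hF hb
    exact hmax L' h2 h1
  · rw [tendsto_atTop] at hb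
    push Not at hb
    obtain ⟨C, hC⟩ := hb
    have hC' : ∀ᶠ k in (U : Filter ℕ), ‖a k - L.starProjection (a k)‖ ≤ C := by
      filter_upwards [hC] with k hk
      exact hk.le
    have hcomp : IsCompact (Metric.closedBall (0 : EuclideanSpace ℝ ι) C) := isCompact_closedBall 0 C
    obtain ⟨m, hm⟩ := (hcomp.image F.continuous_ev).bddBelow
    have h1 : ∀ᶠ k in (U : Filter ℕ), m ≤ F.ev (a k) := by
      filter_upwards [hC', ha, hL.large 1] with k h2 h3 h4
      set u := L.starProjection (a k) with hu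
      have huL : u ∈ L := Submodule.starProjection_apply_mem L _
      have e1 : a k = (a k - u) + u := by abel
      have e2 : F.ev (a k) = F.ev (a k - u) + F.lin (a k - u) u := by
        conv_lhs => rw [e1]
        exact F.ev_add _ _ (hL.hT _ huL _ huL) (hL.hB _ huL _ huL)
      have e3 : 0 ≤ F.lin (a k - u) u := by
        refine ntr F hN L hL.hT hL.hB (a k) ?_ u huL u huL ?_
        · intro i
          obtain ⟨m, -, hm2⟩ := h3 i
          exact ⟨m, hm2⟩
        · intro i hi
          have h5 := h4 i hi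
          have h6 := norm_nonneg (a k - u)
          have h7 : 1 * (‖a k - u‖ + 1) ≤ u i := h5
          linarith
      have e4 : m ≤ F.ev (a k - u) := hm ⟨a k - u, by simpa using h2, rfl⟩
      rw [e2]
      linarith
    obtain ⟨k, h2, h3⟩ := (h1.and (hF.eventually (eventually_lt_atBot m))).exists
    linarith

end Pool.Agent.V1190.Thin
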